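import Pool.Agent.H37.DEN.Targets

/-! RK1: the values have rank one. -/

set_option autoImplicit false
set_option linter.unusedSectionVars false
set_option linter.unusedVariables false

open MvPolynomial Filter
open Pool.Agent.H18.HIT Pool.Agent.H8.TD Pool.Agent.H37.DEN

namespace Pool.Agent.H53.DEN

section ab

variable {Λ : Type} [AddCommGroup Λ] [LinearOrder Λ] [IsOrderedAddMonoid Λ]

/-- dependent elements -/
def Dp (x y : Λ) : Prop := ∃ a b : ℤ, ¬ (a = 0 ∧ b = 0) ∧ a • x + b • y = 0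

/-- a rational multiple -/
def Mp (w x : Λ) : Prop := ∃ a c : ℤ, a ≠ 0 ∧ a • x = c • w

theorem tf {a : ℤ} {x : Λ} (h : a • x = 0) : a = 0 ∨ x = 0 := smul_eq_zero.1 h

theorem mp_of_dp {w x : Λ} (hw : w ≠ 0) (h : Dp x w) : Mp w x := by
  obtain ⟨a, b, hab, h⟩ := h
  refine ⟨a, -b, ?_, ?_⟩
  · rintro rfl
    rw [zero_smul, zero_add] at h
    rcases tf h with h | h
    · exact hab ⟨rfl, h⟩
    · exact hw h
  · rw [neg_smul]
    exact eq_neg_of_add_eq_zero_left h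

theorem mp_sub {w x y : Λ} (hx : Mp w x) (hy : Mp w y) : Mp w (x - y) := by
  obtain ⟨a, c, ha, h⟩ := hx
  obtain ⟨b, d, hb, h'⟩ := hy
  refine ⟨a * b, b * c - a * d, mul_ne_zero ha hb, ?_⟩
  rw [smul_sub, sub_smul, mul_comm a b, mul_smul b a x, mul_smul b c w, h, mul_comm b a,
    mul_smul a b y, mul_smul a d w, h']

theorem dp_of_mp {w x y : Λ} (hx : Mp w x) (hy : Mp w y) : Dp x y := by
  obtain ⟨a, c, ha, h⟩ := hx
  obtain ⟨b, d, hb, h'⟩ := hy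
  by_cases hd : c = 0
  · refine ⟨a, 0, fun h => ha h.1, ?_⟩
    rw [h, hd, zero_smul, zero_smul, add_zero]
  · refine ⟨d * a, -(c * b), fun h => ?_, ?_⟩
    · exact mul_ne_zero hd hb (neg_eq_zero.1 h.2)
    · rw [neg_smul, mul_smul, mul_smul, h, h', ← mul_smul, ← mul_smul, mul_comm d c, add_neg_cancel]

theorem dp_symm {x y : Λ} (h : Dp x y) : Dp y x := by
  obtain ⟨a, b, hab, h⟩ := h
  exact ⟨b, a, fun h => hab ⟨h.2, h.1⟩, by rw [add_comm, h]⟩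

theorem dp_zero (x : Λ) : Dp x 0 := ⟨0, 1, by simp, by simp⟩

/-- four elements of which every two are dependent -/
theorem dp_four {p q p' q' : Λ} (h1 : Dp p q) (h2 : Dp p p') (h3 : Dp p q') (h4 : Dp q p')
    (h5 : Dp q q') (h6 : Dp p' q') : Dp (p - q) (p' - q') := by
  have key : ∀ w : Λ, w ≠ 0 → Dp p w → Dp q w → Dp p' w → Dp q' w → Dp (p - q) (p' - q') :=
    fun w hw a b c d => dp_of_mp (mp_sub (mp_of_dp hw a) (mp_of_dp hw b))
      (mp_sub (mp_of_dp hw c) (mp_of_dp hw d))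
  have hs : ∀ x : Λ, Dp x x := fun x => ⟨1, -1, by simp, by simp⟩
  by_cases hp : p = 0
  · by_cases hq : q = 0
    · rw [hp, hq, sub_zero]
      exact dp_symm (dp_zero _)
    · exact key q hq h1 (hs q) (dp_symm h4) (dp_symm h5)
  · exact key p hp (hs p) (dp_symm h1) (dp_symm h2) (dp_symm h3)

theorem not_dp {x y : Λ} (h : ¬ Dp x y) : ∀ a b : ℤ, a • x + b • y = 0 → a = 0 ∧ b = 0 := by
  intro a b hab
  by_contra hh
  exact h ⟨a, b, hh, hab⟩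

end ab

section vt

variable {k : Type} [Field k] {τ : K3 k →ₐ[k] K3 k} {e : ℕ} {Λ : Type} [AddCommGroup Λ]
  [LinearOrder Λ] {V : K3 k → Λ}

theorem v_one (hV : Vt τ e V) : V 1 = 0 := by
  have := hV.con 1 one_ne_zero
  rwa [map_one] at this

theorem v_pow (hV : Vt τ e V) {a : K3 k} (ha : a ≠ 0) (n : ℕ) : V (a ^ n) = (n : ℤ) • V a := by
  induction n with
  | zero => rw [pow_zero, v_one hV, Nat.cast_zero, zero_smul]
  | succ n ih =>
    rw [pow_succ, hV.mul _ _ (pow_ne_zero n ha) ha, ih, Nat.cast_succ, add_smul, one_smul]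

theorem it_ne {a : K3 k} (ha : a ≠ 0) (n : ℕ) : τ^[n] a ≠ 0 := by
  induction n with
  | zero => exact ha
  | succ n ih =>
    rw [Function.iterate_succ_apply']
    exact (map_ne_zero τ).2 ih

theorem v_it (hV : Vt τ e V) {a : K3 k} (ha : a ≠ 0) (n : ℕ) :
    V (τ^[n] a) = ((e : ℤ) ^ n) • V a := by
  induction n with
  | zero => rw [pow_zero, one_smul]; rfl
  | succ n ih =>
    rw [Function.iterate_succ_apply', hV.tau _ (it_ne ha n), ih, ← mul_smul, pow_succ']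

theorem ι_ne {q : Po 3 k} (hq : q ≠ 0) : ι q ≠ 0 := by
  unfold ι
  exact (map_ne_zero_iff _ (IsFractionRing.injective (Po 3 k) (K3 k))).2 hq

theorem int_lt {K a b : ℕ} (ha : a < K) (hb : b < K) : |(a : ℤ) - b| < K := by
  rw [abs_lt]
  omega

theorem int_dvd {E a b : ℕ} {c : ℤ} (ha : a < E) (hb : b < E)
    (h : c * (E : ℤ) - ((a : ℤ) - b) = 0) : a = b := by
  have h1 : (E : ℤ) ∣ (a : ℤ) - b := ⟨c, by linarith⟩
  have h2 := Int.eq_zero_of_abs_lt_dvd h1 (int_lt ha hb)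
  omega

/-- the lower bound -/
theorem fam (hFDM : T_FDM) (hVKP : T_VKP) (hLIN : T_LIN) [IsOrderedAddMonoid Λ]
    (hV : Vt τ e V) (he : 2 ≤ e) {P Q B C' : Po 3 k} (hP : P ≠ 0) (hQ : Q ≠ 0) (hB : B ≠ 0)
    (hC : C' ≠ 0) (hPQ : ∀ a b : ℤ, a • V (ι P) + b • V (ι Q) = 0 → a = 0 ∧ b = 0)
    (n K a : ℕ) (x y : Λ) (hd : ∀ d : ℤ, d • (V (ι B) - V (ι C')) ∈
      AddSubgroup.closure {x, y, V (ι P), V (ι Q)} → d = 0 ∨ (K : ℤ) ≤ |d|)
    (hdeg : ∀ t i j : ℕ, t < K → i < e ^ n → j < e ^ n →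
      (B ^ t * C' ^ (K - t) * P ^ i * Q ^ j).totalDegree ≤ a) :
    AlgebraicIndependent k ![τ^[n] (ι P), τ^[n] (ι Q)] ∧
    K * (e ^ n) ^ 2 ≤ Module.finrank (IntermediateField.adjoin k {τ^[n] (ι P), τ^[n] (ι Q)})
      (Sp (IntermediateField.adjoin k {τ^[n] (ι P), τ^[n] (ι Q)}) a) := by
  have hE : (0 : ℤ) < (e : ℤ) ^ n := by positivity
  have hPn := v_it hV (ι_ne hP) n
  have hQn := v_it hV (ι_ne hQ) n
  obtain ⟨hai, hval⟩ := hVKP k τ e Λ V hV (τ^[n] (ι P)) (τ^[n] (ι Q)) (it_ne (ι_ne hP) n)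
    (it_ne (ι_ne hQ) n) (by
      intro a b hab
      rw [hPn, hQn, ← mul_smul, ← mul_smul] at hab
      obtain ⟨h1, h2⟩ := hPQ _ _ hab
      exact ⟨(mul_eq_zero.1 h1).resolve_right hE.ne', (mul_eq_zero.1 h2).resolve_right hE.ne'⟩)
  refine ⟨hai, ?_⟩
  set κ := IntermediateField.adjoin k {τ^[n] (ι P), τ^[n] (ι Q)} with hκ
  let G : AddSubgroup Λ := AddSubgroup.closure {V (τ^[n] (ι P)), V (τ^[n] (ι Q))}
  let Y : Fin K × Fin (e ^ n) × Fin (e ^ n) → Po 3 k := fun p =>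
    B ^ (p.1 : ℕ) * C' ^ (K - (p.1 : ℕ)) * P ^ (p.2.1 : ℕ) * Q ^ (p.2.2 : ℕ)
  have hY0 : ∀ p, Y p ≠ 0 := fun p => mul_ne_zero (mul_ne_zero (mul_ne_zero (pow_ne_zero _ hB)
    (pow_ne_zero _ hC)) (pow_ne_zero _ hP)) (pow_ne_zero _ hQ)
  have hYV : ∀ p, V (ι (Y p)) = ((p.1 : ℕ) : ℤ) • V (ι B) + ((K : ℤ) - ((p.1 : ℕ) : ℤ)) • V (ι C')
      + ((p.2.1 : ℕ) : ℤ) • V (ι P) + ((p.2.2 : ℕ) : ℤ) • V (ι Q) := by
    intro p
    have e1 : ι (Y p) = ι B ^ (p.1 : ℕ) * ι C' ^ (K - (p.1 : ℕ)) * ι P ^ (p.2.1 : ℕ) *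
        ι Q ^ (p.2.2 : ℕ) := by
      simp only [Y, ι, map_mul, map_pow]
    have b0 := pow_ne_zero (p.1 : ℕ) (ι_ne hB)
    have c0 := pow_ne_zero (K - (p.1 : ℕ)) (ι_ne hC)
    have p0 := pow_ne_zero (p.2.1 : ℕ) (ι_ne hP)
    have q0 := pow_ne_zero (p.2.2 : ℕ) (ι_ne hQ)
    rw [e1, hV.mul _ _ (mul_ne_zero (mul_ne_zero b0 c0) p0) q0, hV.mul _ _ (mul_ne_zero b0 c0) p0,
      hV.mul _ _ b0 c0, v_pow hV (ι_ne hB), v_pow hV (ι_ne hC), v_pow hV (ι_ne hP),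
      v_pow hV (ι_ne hQ), Nat.cast_sub p.1.2.le]
  have hli : LinearIndependent κ (fun p => ι (Y p)) := by
    refine hLIN k τ e Λ V hV κ G ?_ _ (fun p => ι (Y p)) (fun p => ι_ne (hY0 p)) ?_
    · intro c hc hc0
      obtain ⟨a, b, h⟩ := hval c hc hc0
      rw [h]
      exact AddSubgroup.mem_closure_pair.2 ⟨a, b, rfl⟩
    · rintro ⟨t, i, j⟩ ⟨t', i', j'⟩ h
      obtain ⟨α, β, h⟩ := AddSubgroup.mem_closure_pair.1 h
      rw [hPn, hQn, hYV, hYV] at h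
      simp only at h
      have h1 : ((t : ℕ) : ℤ) • V (ι B) + ((K : ℤ) - ((t : ℕ) : ℤ)) • V (ι C') -
          (((t' : ℕ) : ℤ) • V (ι B) + ((K : ℤ) - ((t' : ℕ) : ℤ)) • V (ι C')) =
          (((t : ℕ) : ℤ) - ((t' : ℕ) : ℤ)) • (V (ι B) - V (ι C')) := by
        module
      have h2 : (((t : ℕ) : ℤ) - ((t' : ℕ) : ℤ)) • (V (ι B) - V (ι C')) =
          (α * (e : ℤ) ^ n - (((i : ℕ) : ℤ) - ((i' : ℕ) : ℤ))) • V (ι P) +
          (β * (e : ℤ) ^ n - (((j : ℕ) : ℤ) - ((j' : ℕ) : ℤ))) • V (ι Q) := by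
        rw [← h1, sub_smul (α * (e : ℤ) ^ n), sub_smul (β * (e : ℤ) ^ n), mul_smul, mul_smul]
        have h3 : α • (e : ℤ) ^ n • V (ι P) = ((t : ℕ) : ℤ) • V (ι B) +
            ((K : ℤ) - ((t : ℕ) : ℤ)) • V (ι C') + ((i : ℕ) : ℤ) • V (ι P) +
            ((j : ℕ) : ℤ) • V (ι Q) - (((t' : ℕ) : ℤ) • V (ι B) +
            ((K : ℤ) - ((t' : ℕ) : ℤ)) • V (ι C') + ((i' : ℕ) : ℤ) • V (ι P) +
            ((j' : ℕ) : ℤ) • V (ι Q)) - β • (e : ℤ) ^ n • V (ι Q) := by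
          rw [← h]
          abel
        rw [h3]
        module
      have h4 : (((t : ℕ) : ℤ) - ((t' : ℕ) : ℤ)) • (V (ι B) - V (ι C')) ∈
          AddSubgroup.closure {x, y, V (ι P), V (ι Q)} := by
        rw [h2]
        exact add_mem (AddSubgroup.zsmul_mem _ (AddSubgroup.subset_closure (by simp)) _)
          (AddSubgroup.zsmul_mem _ (AddSubgroup.subset_closure (by simp)) _)
      have h5 : ((t : ℕ) : ℤ) - ((t' : ℕ) : ℤ) = 0 :=
        (hd _ h4).resolve_right (not_le.2 (int_lt t.2 t'.2))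
      rw [h5, zero_smul] at h2
      obtain ⟨h6, h7⟩ := hPQ _ _ h2.symm
      have h8 : (i : ℕ) = (i' : ℕ) := by
        refine int_dvd i.2 i'.2 (c := α) ?_
        push_cast
        exact h6
      have h9 : (j : ℕ) = (j' : ℕ) := by
        refine int_dvd j.2 j'.2 (c := β) ?_
        push_cast
        exact h7
      have h10 : (t : ℕ) = (t' : ℕ) := by omega
      rw [Fin.ext h10, Fin.ext h8, Fin.ext h9]
  have := (hFDM k κ 0 0 a).1
  have hmem : ∀ p, ι (Y p) ∈ Sp κ a := fun p => Submodule.subset_span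
    ⟨Y p, hdeg _ _ _ p.1.2 p.2.1.2 p.2.2.2, rfl⟩
  have hli' : LinearIndependent κ (fun p => (⟨ι (Y p), hmem p⟩ : Sp κ a)) :=
    LinearIndependent.of_comp (Submodule.subtype _) hli
  have := hli'.fintype_card_le_finrank
  simpa [Fintype.card_prod, sq] using this

/-- degrees -/
theorem degs {P Q B C' : Po 3 k} {K D E d t i j : ℕ} (ht : t < K) (hi : i < E) (hj : j < E)
    (hB : B.totalDegree ≤ D) (hC : C'.totalDegree ≤ D) (hP : P.totalDegree ≤ d)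
    (hQ : Q.totalDegree ≤ d) (hKD : K * D ≤ E) :
    (B ^ t * C' ^ (K - t) * P ^ i * Q ^ j).totalDegree ≤ (1 + 2 * d) * E := by
  have h1 : (B ^ t).totalDegree ≤ t * D := (totalDegree_pow _ _).trans (Nat.mul_le_mul_left t hB)
  have h2 : (C' ^ (K - t)).totalDegree ≤ (K - t) * D :=
    (totalDegree_pow _ _).trans (Nat.mul_le_mul_left _ hC)
  have h3 : (P ^ i).totalDegree ≤ E * d :=
    (totalDegree_pow _ _).trans (Nat.mul_le_mul hi.le hP)
  have h4 : (Q ^ j).totalDegree ≤ E * d :=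
    (totalDegree_pow _ _).trans (Nat.mul_le_mul hj.le hQ)
  have h5 : t * D + (K - t) * D = K * D := by
    rw [← Nat.add_mul, Nat.add_sub_cancel' ht.le]
  have h6 : (B ^ t * C' ^ (K - t) * P ^ i * Q ^ j).totalDegree ≤
      (B ^ t).totalDegree + (C' ^ (K - t)).totalDegree + (P ^ i).totalDegree +
        (Q ^ j).totalDegree :=
    (totalDegree_mul _ _).trans (Nat.add_le_add_right ((totalDegree_mul _ _).trans
      (Nat.add_le_add_right (totalDegree_mul _ _) _)) _)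
  have h7 : (1 + 2 * d) * E = E + E * d + E * d := by ring
  omega

/-- the contradiction -/
theorem core (hFDM : T_FDM) (hBEZ : T_BEZ) (hRBD : T_RBD) (hSUM : T_SUM) (hDIV : T_DIV)
    (hVKP : T_VKP) (hLIN : T_LIN) (hFGT : T_FGT) (hNMR : T_NMR) [CharZero k]
    [IsOrderedAddMonoid Λ] {T : Tup 3 k} {u : K3 k} (hF : Fld T τ e) (hG : Grow τ e)
    (hV : Vt τ e V) (hu : Gen e V u) {P Q : Po 3 k} (hP : P ≠ 0) (hQ : Q ≠ 0)
    (hPQ : ¬ Dp (V (ι P)) (V (ι Q))) : False := by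
  have he := hF.two
  have hVu : V u ≠ 0 := by
    intro h
    have h1 := hu.ord 1 0 (by rw [h, smul_zero, smul_zero])
    have h2 := Int.le_of_dvd one_pos h1
    omega
  obtain ⟨h₀, hh₀, hx⟩ : ∃ h₀, (h₀ = ι P ∨ h₀ = ι Q) ∧ ¬ Dp (V h₀) (V u) := by
    by_contra hcon
    push Not at hcon
    exact hPQ (dp_of_mp (mp_of_dp hVu (hcon _ (Or.inl rfl))) (mp_of_dp hVu (hcon _ (Or.inr rfl))))
  have h₀0 : h₀ ≠ 0 := by
    rcases hh₀ with rfl | rfl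
    · exact ι_ne hP
    · exact ι_ne hQ
  obtain ⟨g, hg, hgt⟩ := hFGT Λ (V h₀) (V u) (V (ι P)) (V (ι Q)) (not_dp hx)
  obtain ⟨C₁, hdiv⟩ := hDIV k T τ e Λ V u hF hV hu h₀ h₀0
  set C₂ := max C₁ 1 with hC₂
  have hC₂1 : 1 ≤ C₂ := le_max_right _ _
  set d₀ := max P.totalDegree Q.totalDegree with hd₀
  obtain ⟨r, hr1, hr⟩ : ∃ r, 1 ≤ r ∧ e * C₂ ^ 2 ≤ e ^ r :=
    ⟨e * C₂ ^ 2 + 1, by omega, (Nat.lt_pow_self (by omega : 1 < e)).le.trans
      (Nat.pow_le_pow_right (by omega) (Nat.le_succ _))⟩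
  obtain ⟨c, hc, J₀, hJ₀⟩ := hNMR e r (2 * g) ((2 * d₀ + 2) * (P.totalDegree * Q.totalDegree)) he
  obtain ⟨N, hN⟩ := hG c hc
  set J := J₀ + N + g + 1 with hJ
  set n := r * J with hn
  have hnN : N ≤ n := by
    have : 1 * J ≤ r * J := Nat.mul_le_mul_right J hr1
    omega
  obtain ⟨h, cJ, hh0, hhV, B, C', hC'0, hhBC, hBd, hCd⟩ := hdiv J
  have hB0 : B ≠ 0 := by
    rintro rfl
    apply hh0
    rw [hhBC]
    simp [ι]
  have hVh : V h = V (ι B) - V (ι C') := by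
    rw [hhBC]
    exact (hSUM k τ e Λ V hV).2.1 _ _ (ι_ne hB0) (ι_ne hC'0)
  have hgJ : g < e ^ J := (by omega : g < J).trans_le
    ((Nat.lt_pow_self (by omega : 1 < e)).le)
  set K := e ^ J / g with hK
  have hKg : K * g ≤ e ^ J := Nat.div_mul_le_self _ _
  have hK2 : e ^ J ≤ 2 * g * K := by
    have h1 : 1 ≤ K := (Nat.le_div_iff_mul_le hg).2 (by omega)
    have h2 : e ^ J < g * (K + 1) := Nat.lt_mul_div_succ _ hg
    nlinarith
  have hd : ∀ d : ℤ, d • (V (ι B) - V (ι C')) ∈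
      AddSubgroup.closure {V h₀, V u, V (ι P), V (ι Q)} → d = 0 ∨ (K : ℤ) ≤ |d| := by
    intro d hd
    rw [← hVh] at hd
    rcases eq_or_ne d 0 with h | hd0
    · exact Or.inl h
    right
    have h1 : ((e : ℤ) ^ J) ∣ (g : ℤ) * d := by
      refine hgt d (-(d * cJ)) _ _ hd (by positivity) ?_
      rw [smul_comm ((e : ℤ) ^ J) d (V h), hhV, smul_sub, neg_smul, mul_smul, sub_eq_add_neg]
    have h2 : ((e : ℤ) ^ J) ≤ (g : ℤ) * |d| := by
      have h3 : ((e : ℤ) ^ J) ∣ |(g : ℤ) * d| := (dvd_abs _ _).2 h1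
      have h4 := Int.le_of_dvd (abs_pos.2 (mul_ne_zero (by omega) hd0)) h3
      rwa [abs_mul, abs_of_nonneg (by omega : (0 : ℤ) ≤ (g : ℤ))] at h4
    have h5 : (K : ℤ) * g ≤ g * |d| := by
      refine le_trans ?_ h2
      exact_mod_cast hKg
    rw [mul_comm] at h5
    exact le_of_mul_le_mul_left h5 (by omega)
  have hKD : K * C₂ ^ (J + 1) ≤ e ^ n := by
    calc K * C₂ ^ (J + 1) ≤ e ^ J * C₂ ^ (2 * J) := by
          refine Nat.mul_le_mul ?_ (Nat.pow_le_pow_right hC₂1 (by omega))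
          exact Nat.div_le_self _ _
      _ = (e * C₂ ^ 2) ^ J := by rw [mul_pow, pow_mul]
      _ ≤ (e ^ r) ^ J := Nat.pow_le_pow_left hr J
      _ = e ^ n := by rw [hn, pow_mul]
  have hCC : C₁ ^ (J + 1) ≤ C₂ ^ (J + 1) := Nat.pow_le_pow_left (le_max_left _ _) _
  obtain ⟨hai, hlow⟩ := fam hFDM hVKP hLIN hV he hP hQ hB0 hC'0 (not_dp hPQ) n K
    ((1 + 2 * d₀) * e ^ n) (V h₀) (V u) hd (fun t i j ht hi hj =>
      degs ht hi hj (hBd.trans hCC) (hCd.trans hCC) (le_max_left _ _) (le_max_right _ _) hKD)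
  set M := ⌊c ^ n⌋₊ with hM
  have hc0 : 0 < c := lt_trans (by positivity) hc
  have hMc : (M : ℝ) ≤ c ^ n := Nat.floor_le (by positivity)
  have hdg : ∀ s s' s'' : Fin 3 → k, dg k {lc s (xx k), lc s' (ph τ n), lc s'' (ph τ n)} ≤ M :=
    fun s s' s'' => Nat.le_floor (hN n hnN s s' s'').le
  have hbz := hBEZ k τ P Q n M hdg
  have hub := hRBD k (τ^[n] (ι P)) (τ^[n] (ι Q)) (P.totalDegree * Q.totalDegree * M) hai hbz
    ((1 + 2 * d₀) * e ^ n)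
  have hnum := hlow.trans hub
  have hJJ := hJ₀ J (by omega)
  rw [← hn] at hJJ
  refine absurd hJJ (not_lt.2 ?_)
  have en1 : (1 : ℝ) ≤ (e : ℝ) ^ n := one_le_pow₀ (by exact_mod_cast (by omega : 1 ≤ e))
  have hnumR : (K : ℝ) * ((e : ℝ) ^ n) ^ 2 ≤ ((1 + 2 * (d₀ : ℝ)) * (e : ℝ) ^ n + 1) *
      ((P.totalDegree : ℝ) * Q.totalDegree * M) := by exact_mod_cast hnum
  have hK2R : (e : ℝ) ^ J ≤ 2 * g * K := by exact_mod_cast hK2
  have hX : (0 : ℝ) ≤ (P.totalDegree : ℝ) * Q.totalDegree := by positivity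
  calc (e : ℝ) ^ J * ((e : ℝ) ^ n) ^ 2 ≤ 2 * g * K * ((e : ℝ) ^ n) ^ 2 :=
        mul_le_mul_of_nonneg_right hK2R (by positivity)
    _ = 2 * g * (K * ((e : ℝ) ^ n) ^ 2) := by ring
    _ ≤ 2 * g * (((1 + 2 * (d₀ : ℝ)) * (e : ℝ) ^ n + 1) *
      ((P.totalDegree : ℝ) * Q.totalDegree * M)) :=
        mul_le_mul_of_nonneg_left hnumR (by positivity)
    _ ≤ 2 * g * (((2 * (d₀ : ℝ) + 2) * (e : ℝ) ^ n) *
      ((P.totalDegree : ℝ) * Q.totalDegree * c ^ n)) := by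
        refine mul_le_mul_of_nonneg_left ?_ (by positivity)
        refine mul_le_mul ?_ (mul_le_mul_of_nonneg_left hMc hX) (by positivity) (by positivity)
        nlinarith
    _ = _ := by push_cast; ring

end vt

theorem pf_RK1 (hRDG : T_RDG) (hFDM : T_FDM) (hBEZ : T_BEZ) (hRBD : T_RBD) (hSUM : T_SUM)
    (hDIV : T_DIV) (hVKP : T_VKP) (hLIN : T_LIN) (hFGT : T_FGT) (hNMR : T_NMR) : T_RK1 := by
  intro k _ _ T τ e Λ _ _ _ V u hF hG hV hu g h hg hh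
  have key : ∀ P Q : Po 3 k, P ≠ 0 → Q ≠ 0 → Dp (V (ι P)) (V (ι Q)) := by
    intro P Q hP hQ
    by_contra hPQ
    exact core hFDM hBEZ hRBD hSUM hDIV hVKP hLIN hFGT hNMR hF hG hV hu hP hQ hPQ
  obtain ⟨hR, -⟩ := hRDG k
  have hv : ∀ x : K3 k, x ≠ 0 → V x = V (ι (nu x)) - V (ι (de x)) := by
    intro x hx
    obtain ⟨h1, h2, h3⟩ := hR x
    have h4 := (hSUM k τ e Λ V hV).2.1 (ι (nu x)) (ι (de x)) (ι_ne (h3 hx)) (ι_ne h1)
    rw [← h2] at h4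
    exact h4
  have hn : ∀ x : K3 k, x ≠ 0 → nu x ≠ 0 := fun x hx => (hR x).2.2 hx
  have hd : ∀ x : K3 k, de x ≠ 0 := fun x => (hR x).1
  rw [hv g hg, hv h hh]
  exact dp_four (key _ _ (hn g hg) (hd g)) (key _ _ (hn g hg) (hn h hh))
    (key _ _ (hn g hg) (hd h)) (key _ _ (hd g) (hn h hh)) (key _ _ (hd g) (hd h))
    (key _ _ (hn h hh) (hd h))

end Pool.Agent.H53.DEN
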